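import Pool.Agent.Q329.NF.Red
import Pool.Agent.Q329.UR.Asym

/-! The normal form of 3SUM-Indexing (helper329). -/

set_option autoImplicit false
set_option linter.unusedVariables false

open Finset

namespace Pool.Agent.Q329.NF

open Pool.Agent.Q329.UR Pool.Agent.Q329.UR.Probe

/-- The normal form. -/
theorem normal_form (c : ℕ) : ∃ C : ℕ, ∀ n : ℕ, 1 ≤ n → ∃ N : ℕ,
    N ≤ C * n * (Nat.log 2 n + 1) ^ 2 ∧
    ∀ S T w : ℕ, N ^ 2 ≤ 2 ^ w → HasConvStructure N S T w →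
      HasStructure n (c * (Nat.log 2 n + 1)) (C * (Nat.log 2 n + 1) ^ 2 * (S + 1))
        (C * (Nat.log 2 n + 1) ^ 2 * (T + 1)) w := by
  obtain ⟨C1, hpoly1⟩ := poly c
  obtain ⟨C0, hC0⟩ : ∃ C0, C0 = C1 + 1 := ⟨_, rfl⟩
  obtain ⟨K1, hK1⟩ : ∃ K1, K1 = C0 + 4 := ⟨_, rfl⟩
  obtain ⟨K, hK⟩ : ∃ K, K = 4 * K1 + 20 := ⟨_, rfl⟩
  have hK2 : 4 * ((4 * K1 + 2) * (K + 3) + 1) < 2 ^ K := by
    have h1 : K1 + 1 ≤ 4 ^ K1 := Nat.lt_pow_self (by norm_num)
    have h2 : 2 ^ K = 2 ^ 20 * (4 ^ K1 * 4 ^ K1) := by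
      rw [hK, pow_add, ← mul_pow, pow_mul]
      ring
    have h3 : (K1 + 1) * (K1 + 1) ≤ 4 ^ K1 * 4 ^ K1 := Nat.mul_le_mul h1 h1
    rw [h2]
    calc 4 * ((4 * K1 + 2) * (K + 3) + 1) < 2 ^ 20 * ((K1 + 1) * (K1 + 1)) := by
          rw [hK]
          nlinarith
      _ ≤ _ := Nat.mul_le_mul_left _ h3
  refine ⟨2 * 2 ^ K + (4 * C0 + 3) + 10 * (c + 2), fun n hn => ?_⟩
  obtain ⟨m, hm1, hpoly2⟩ := hpoly1 n hn
  obtain ⟨L, hL⟩ : ∃ L, L = Nat.log 2 n + 1 := ⟨_, rfl⟩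
  rw [← hL] at hm1 hpoly2 ⊢
  have hL1 : 1 ≤ L := by omega
  have hnL : n + 1 ≤ 2 ^ L := by
    rw [hL]
    exact Nat.lt_pow_succ_log_self (by norm_num) n
  have hLn : 2 ^ L ≤ 2 * n := by
    rw [hL, pow_succ]
    have := Nat.pow_log_le_self 2 (by omega : n ≠ 0)
    omega
  obtain ⟨l, hl⟩ : ∃ l, l = Nat.log 2 L := ⟨_, rfl⟩
  have hl1 : L + 1 ≤ 2 * 2 ^ l := by
    rw [hl]
    have := Nat.lt_pow_succ_log_self (b := 2) (by norm_num) L
    rw [pow_succ] at this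
    omega
  have hl2 : 2 ^ l ≤ L := by
    rw [hl]
    exact Nat.pow_log_le_self 2 (by omega)
  have hl3 : l ≤ L := by
    rw [hl]
    exact Nat.log_le_self 2 L
  have hm : 2 ^ m ≤ C0 * n ^ 2 * L ^ 2 := by
    refine hm1.trans (Nat.mul_le_mul_right _ (Nat.mul_le_mul_right _ (by omega)))
  have hmK : m ≤ K1 * L := by
    have h1 : 2 ^ m < 2 ^ (C0 + 4 * L) := by
      calc 2 ^ m ≤ C0 * n ^ 2 * L ^ 2 := hm
        _ < 2 ^ C0 * (2 ^ L) ^ 2 * (2 ^ L) ^ 2 := by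
            have e1 : C0 < 2 ^ C0 := Nat.lt_two_pow_self
            have e2 : n ^ 2 ≤ (2 ^ L) ^ 2 := Nat.pow_le_pow_left (by omega) 2
            have e3 : L ^ 2 ≤ (2 ^ L) ^ 2 := Nat.pow_le_pow_left Nat.lt_two_pow_self.le 2
            have e4 : 0 < (2 ^ L) ^ 2 := by positivity
            calc C0 * n ^ 2 * L ^ 2 ≤ C0 * (2 ^ L) ^ 2 * (2 ^ L) ^ 2 :=
                  Nat.mul_le_mul (Nat.mul_le_mul_left _ e2) e3
              _ < _ := Nat.mul_lt_mul_of_pos_right (Nat.mul_lt_mul_of_pos_right e1 e4) e4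
        _ = 2 ^ (C0 + 4 * L) := by
            rw [pow_add, mul_comm 4 L, pow_mul]
            ring
    have h2 := (Nat.pow_lt_pow_iff_right (by norm_num : 1 < 2)).mp h1
    have h3 : C0 ≤ C0 * L := Nat.le_mul_of_pos_right _ hL1
    rw [hK1, add_mul]
    omega
  obtain ⟨a, ha⟩ : ∃ a, a = L + 2 * l + K := ⟨_, rfl⟩
  obtain ⟨b, hb⟩ : ∃ b, b = L + l := ⟨_, rfl⟩
  have h2a : 2 ^ a = 2 ^ L * (2 ^ l) ^ 2 * 2 ^ K := by
    rw [ha, pow_add, pow_add, mul_comm 2 l, pow_mul]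
  have h2b : 2 ^ b = 2 ^ L * 2 ^ l := by rw [hb, pow_add]
  obtain ⟨N, hN⟩ : ∃ N, N = 2 ^ a + (4 * C0 * n * L + 3) := ⟨_, rfl⟩
  obtain ⟨Q, hQ⟩ : ∃ Q, Q = (primes a).filter fun q => 2 ^ b ≤ q := ⟨_, rfl⟩
  have hnL2 : 1 ≤ n * L := Nat.mul_pos hn hL1
  -- the quotients
  have hquot : 2 ^ m / 2 ^ b ≤ 2 * C0 * n * L := by
    refine Nat.div_le_of_le_mul ?_
    calc 2 ^ m ≤ C0 * n ^ 2 * L ^ 2 := hm
      _ = (C0 * n * L) * (n * L) := by ring
      _ ≤ (C0 * n * L) * (2 ^ L * (2 * 2 ^ l)) :=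
          Nat.mul_le_mul_left _ (Nat.mul_le_mul (by omega) (by omega))
      _ = 2 ^ b * (2 * C0 * n * L) := by rw [h2b]; ring
  have hQ1 : ∀ q ∈ Q, q.Prime ∧ q ≤ N ∧ 2 ^ m / q ≤ 2 * C0 * n * L := by
    intro q hq
    rw [hQ, mem_filter, primes, mem_filter, mem_range] at hq
    obtain ⟨⟨h1, h2⟩, h3⟩ := hq
    refine ⟨h2, by omega, (Nat.div_le_div_left h3 (by positivity)).trans hquot⟩
  -- the number of primes
  have hQ2 : 2 * (2 * (n * m)) < Q.card := by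
    by_contra hcon
    push Not at hcon
    have h1 := card_primes a (by omega)
    have h2 : (primes a).card ≤ Q.card + 2 ^ b := by
      have h3 : primes a ⊆ Q ∪ range (2 ^ b) := by
        intro q hq
        rw [mem_union, hQ, mem_filter, mem_range]
        by_cases h : 2 ^ b ≤ q
        · exact Or.inl ⟨hq, h⟩
        · exact Or.inr (by omega)
      refine (card_le_card h3).trans ((card_union_le _ _).trans ?_)
      rw [card_range]
    have haL : a ≤ (K + 3) * L := by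
      have h3 : K ≤ K * L := Nat.le_mul_of_pos_right _ hL1
      rw [ha, add_mul]
      omega
    have h3 : 2 ^ a ≤ (4 * (n * m) + 2 ^ b + 1) * a + 1 := by
      calc 2 ^ a ≤ (primes a).card * a + a + 1 := h1
        _ ≤ (4 * (n * m) + 2 ^ b) * a + a + 1 := by
            have := Nat.mul_le_mul_right a (h2.trans (Nat.add_le_add_right hcon (2 ^ b)))
            have e : 2 * (2 * (n * m)) = 4 * (n * m) := by ring
            rw [e] at this
            omega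
        _ = _ := by ring
    have h4 : 4 * (n * m) + 2 ^ b + 1 ≤ (4 * K1 + 2) * (2 ^ L * L) := by
      have e1 : n * m ≤ K1 * (2 ^ L * L) := by
        calc n * m ≤ 2 ^ L * (K1 * L) := Nat.mul_le_mul (by omega) hmK
          _ = _ := by ring
      have e2 : 2 ^ b ≤ 2 ^ L * L := by
        rw [h2b]
        exact Nat.mul_le_mul_left _ hl2
      have e3 : 1 ≤ 2 ^ L * L := Nat.mul_pos (by positivity) hL1
      calc 4 * (n * m) + 2 ^ b + 1 ≤ 4 * (K1 * (2 ^ L * L)) + 2 ^ L * L + 2 ^ L * L := by omega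
        _ = _ := by ring
    have h5 : 2 ^ a ≤ ((4 * K1 + 2) * (K + 3) + 1) * (2 ^ L * L ^ 2) := by
      have e2 : 1 ≤ 2 ^ L * L ^ 2 := Nat.mul_pos (by positivity) (by positivity)
      calc 2 ^ a ≤ (4 * (n * m) + 2 ^ b + 1) * a + 1 := h3
        _ ≤ ((4 * K1 + 2) * (2 ^ L * L)) * ((K + 3) * L) + 2 ^ L * L ^ 2 :=
            Nat.add_le_add (Nat.mul_le_mul h4 haL) e2
        _ = _ := by ring
    have h6 : 2 ^ K * (2 ^ L * L ^ 2) ≤ 4 * 2 ^ a := by
      rw [h2a]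
      calc 2 ^ K * (2 ^ L * L ^ 2) ≤ 2 ^ K * (2 ^ L * (2 * 2 ^ l) ^ 2) :=
            Nat.mul_le_mul_left _ (Nat.mul_le_mul_left _ (Nat.pow_le_pow_left (by omega) 2))
        _ = _ := by ring
    have h7 : 2 ^ K * (2 ^ L * L ^ 2) ≤
        (4 * ((4 * K1 + 2) * (K + 3) + 1)) * (2 ^ L * L ^ 2) := by
      refine h6.trans ((Nat.mul_le_mul_left 4 h5).trans (le_of_eq ?_))
      ring
    have h8 := Nat.le_of_mul_le_mul_right h7 (Nat.mul_pos (by positivity) (by positivity))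
    omega
  have hC0n : 0 < 4 * C0 * n * L := by
    have : 4 * C0 * n * L = 4 * C0 * (n * L) := by ring
    rw [this]
    exact Nat.mul_pos (by omega) (by omega)
  refine ⟨N, ?_, fun S T w hw hS => ?_⟩
  · -- the size
    have e1 : 2 ^ a ≤ 2 * 2 ^ K * (n * L ^ 2) := by
      rw [h2a]
      calc 2 ^ L * (2 ^ l) ^ 2 * 2 ^ K ≤ (2 * n) * L ^ 2 * 2 ^ K :=
            Nat.mul_le_mul_right _ (Nat.mul_le_mul hLn (Nat.pow_le_pow_left hl2 2))
        _ = _ := by ring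
    have e2 : 4 * C0 * n * L + 3 ≤ (4 * C0 + 3) * (n * L ^ 2) := by
      have e3 : n * L ≤ n * L ^ 2 := by
        rw [sq]
        exact Nat.mul_le_mul_left _ (Nat.le_mul_of_pos_right _ hL1)
      have e4 : 1 ≤ n * L ^ 2 := hnL2.trans e3
      calc 4 * C0 * n * L + 3 = 4 * C0 * (n * L) + 3 * 1 := by ring
        _ ≤ 4 * C0 * (n * L ^ 2) + 3 * (n * L ^ 2) :=
            Nat.add_le_add (Nat.mul_le_mul_left _ e3) (Nat.mul_le_mul_left _ e4)
        _ = _ := by ring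
    calc N ≤ 2 * 2 ^ K * (n * L ^ 2) + (4 * C0 + 3) * (n * L ^ 2) := by omega
      _ ≤ 2 * 2 ^ K * (n * L ^ 2) + (4 * C0 + 3) * (n * L ^ 2) +
          10 * (c + 2) * (n * L ^ 2) := Nat.le_add_right _ _
      _ = _ := by ring
  · have hN3 : 3 < N := by omega
    have hNw : N < 2 ^ w := by
      refine lt_of_lt_of_le ?_ hw
      rw [sq]
      exact (Nat.lt_mul_iff_one_lt_right (by omega)).mpr (by omega)
    have hmw : m ≤ w := by
      have h1 : 2 ^ m ≤ 2 ^ w := by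
        refine le_trans ?_ hw
        calc 2 ^ m ≤ C0 * n ^ 2 * L ^ 2 := hm
          _ = C0 * (n * L) ^ 2 := by ring
          _ ≤ (4 * C0) ^ 2 * (n * L) ^ 2 := by
              refine Nat.mul_le_mul_right _ ?_
              have : 1 ≤ C0 := by omega
              nlinarith
          _ = (4 * C0 * n * L) ^ 2 := by ring
          _ ≤ N ^ 2 := Nat.pow_le_pow_left (by omega) 2
      exact (Nat.pow_le_pow_iff_right (by norm_num)).mp h1
    have ht : n ^ 2 < 2 ^ (2 * L) := by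
      rw [mul_comm 2 L, pow_mul]
      exact Nat.pow_lt_pow_left (by omega) (by norm_num)
    have h1 := reduction (t := 2 * L) (M := 2 * C0 * n * L) Q hQ1 (by
      have e : 2 * (2 * C0 * n * L) = 4 * C0 * n * L := by ring
      rw [e]
      omega) hQ2 ht hNw hS
    have h2 := hpoly2 _ _ _ hmw h1
    refine mono ?_ ?_ h2
    · have e1 : c * L + 2 ≤ (c + 2) * L := by nlinarith
      have e2 : 2 * L * (S + 1) + 1 ≤ 3 * L * (S + 1) := by nlinarith
      calc (c * L + 2) * (2 * L * (S + 1) + 1) ≤ ((c + 2) * L) * (3 * L * (S + 1)) :=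
            Nat.mul_le_mul e1 e2
        _ = (3 * (c + 2)) * (L ^ 2 * (S + 1)) := by ring
        _ ≤ (2 * 2 ^ K + (4 * C0 + 3) + 10 * (c + 2)) * (L ^ 2 * (S + 1)) :=
            Nat.mul_le_mul_right _ (by omega)
        _ = _ := by ring
    · have e1 : c * L + 2 ≤ (c + 2) * L := by nlinarith
      have e2 : 2 * (2 * L * (2 * T + 1)) + 1 ≤ 10 * L * (T + 1) := by nlinarith
      calc (c * L + 2) * (2 * (2 * L * (2 * T + 1)) + 1) ≤ ((c + 2) * L) * (10 * L * (T + 1)) :=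
            Nat.mul_le_mul e1 e2
        _ = (10 * (c + 2)) * (L ^ 2 * (T + 1)) := by ring
        _ ≤ (2 * 2 ^ K + (4 * C0 + 3) + 10 * (c + 2)) * (L ^ 2 * (T + 1)) :=
            Nat.mul_le_mul_right _ (by omega)
        _ = _ := by ring

end Pool.Agent.Q329.NF
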