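import Pool.Agent.Q329.UR.Defs

/-! Data structures for Convolution-3SUM-Indexing in the cell-probe model (helper329): definitions. -/

set_option autoImplicit false

namespace Pool.Agent.Q329.NF

open Pool.Agent.Q329.UR

/-- There is a cell-probe data structure for Convolution-3SUM-Indexing for two functions `f` and `g` from
`{0, …, N - 1}` to `{0, …, N - 1}` with `S` cells of `w` bits and at most `T` probes for every query: the
memory `mem f g` depends on the functions `f` and `g`, the query algorithm `alg k v` on the query `(k, v)`
only, and the answer is whether some arguments `i` and `j` satisfy `i + j = k` and `f i + g j = v`. -/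
def HasConvStructure (N S T w : ℕ) : Prop :=
  ∃ (mem : (Fin N → Fin N) → (Fin N → Fin N) → Fin S → Fin (2 ^ w))
    (alg : ℕ → ℕ → Probe (Fin S) (Fin (2 ^ w))),
    (∀ k v, (alg k v).Within T) ∧
    ∀ f g : Fin N → Fin N, ∀ k v : ℕ,
      ((alg k v).run (mem f g) = true ↔
        ∃ i j : Fin N, (i : ℕ) + (j : ℕ) = k ∧ (f i : ℕ) + (g j : ℕ) = v)

end Pool.Agent.Q329.NF
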