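import Pool.Agent.Q329.NF.Defs
import Pool.Agent.Q329.UR.Red

/-! 3SUM-Indexing and Convolution-3SUM-Indexing (helper329). -/

set_option autoImplicit false
set_option linter.unusedVariables false

open Finset

namespace Pool.Agent.Q329.UR.Probe

variable {C C' Word : Type}

/-- disjunction of a list -/
def anyP : List (Probe C Word) → Probe C Word
  | [] => out false
  | P :: L => P.bind fun b => if b = true then out true else anyP L

lemma run_anyP (mem : C → Word) (L : List (Probe C Word)) :
    (anyP L).run mem = true ↔ ∃ P ∈ L, P.run mem = true := by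
  induction L with
  | nil => simp [anyP, run]
  | cons P L ih =>
    unfold anyP
    rw [run_bind]
    by_cases h : P.run mem = true
    · rw [if_pos h]
      simp [h, run]
    · rw [if_neg h, ih]
      simp [h]

lemma within_anyP {T : ℕ} (L : List (Probe C Word)) (h : ∀ P ∈ L, P.Within T) :
    (anyP L).Within (L.length * T) := by
  induction L with
  | nil => exact trivial
  | cons P L ih =>
    have h1 : (P :: L).length * T = T + L.length * T := by
      rw [List.length_cons]; ring
    rw [h1]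
    refine within_bind _ (fun b => ?_) _ (h P (List.mem_cons_self ..))
    split_ifs
    · exact trivial
    · exact ih fun Q hQ => h Q (List.mem_cons_of_mem _ hQ)

end Pool.Agent.Q329.UR.Probe

namespace Pool.Agent.Q329.NF

open Pool.Agent.Q329.UR Pool.Agent.Q329.UR.Probe

/-- The value at `i` is the only one in its residue class modulo `q`. -/
def Iso {n : ℕ} (A : Fin n → ℕ) (q : ℕ) (i : Fin n) : Prop :=
  ∀ i', A i' ≡ A i [MOD q] → A i' = A i

open Classical in
/-- A value is isolated modulo most primes. -/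
lemma few_bad {n m : ℕ} (Q : Finset ℕ) (hQ : ∀ q ∈ Q, q.Prime) (A : Fin n → ℕ)
    (hA : ∀ i, A i < 2 ^ m) (i : Fin n) : (Q.filter fun q => ¬ Iso A q i).card ≤ n * m := by
  have h1 : (Q.filter fun q => ¬ Iso A q i) ⊆ (univ : Finset (Fin n)).biUnion fun i' =>
      (((A i : ℤ) - (A i' : ℤ)).natAbs).primeFactors := by
    intro q hq
    rw [mem_filter] at hq
    obtain ⟨hq1, hq2⟩ := hq
    unfold Iso at hq2
    push Not at hq2
    obtain ⟨i', h2, h3⟩ := hq2
    rw [mem_biUnion]
    refine ⟨i', mem_univ _, ?_⟩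
    rw [Nat.mem_primeFactors]
    refine ⟨hQ q hq1, ?_, ?_⟩
    · exact Int.natCast_dvd.mp ((Nat.modEq_iff_dvd).mp h2)
    · intro h4
      rw [Int.natAbs_eq_zero, sub_eq_zero] at h4
      exact h3 (by exact_mod_cast h4.symm)
  refine (card_le_card h1).trans (card_biUnion_le.trans ?_)
  calc ∑ i' : Fin n, ((((A i : ℤ) - (A i' : ℤ)).natAbs).primeFactors).card ≤
      ∑ _i' : Fin n, m := by
        refine sum_le_sum fun i' _ => ?_
        rcases Nat.eq_zero_or_pos ((A i : ℤ) - (A i' : ℤ)).natAbs with h0 | h0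
        · rw [h0]
          simp
        · refine card_primeFactors h0.ne' ?_
          have h4 := hA i
          have h5 := hA i'
          have h6 : 2 ^ (m + 1) = 2 ^ m + 2 ^ m := by rw [pow_succ]; ring
          rw [h6]
          omega
    _ = n * m := by
        rw [sum_const, card_univ, Fintype.card_fin, smul_eq_mul]

open Classical in
lemma few_bad2 {n m : ℕ} (Q : Finset ℕ) (hQ : ∀ q ∈ Q, q.Prime) (A B : Fin n → ℕ)
    (hA : ∀ i, A i < 2 ^ m) (hB : ∀ i, B i < 2 ^ m) (x : Fin n × Fin n) :
    (Q.filter fun q => ¬ (Iso A q x.1 ∧ Iso B q x.2)).card ≤ 2 * (n * m) := by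
  have h1 : (Q.filter fun q => ¬ (Iso A q x.1 ∧ Iso B q x.2)) ⊆
      (Q.filter fun q => ¬ Iso A q x.1) ∪ (Q.filter fun q => ¬ Iso B q x.2) := by
    intro q hq
    rw [mem_filter, not_and_or] at hq
    rw [mem_union, mem_filter, mem_filter]
    rcases hq with ⟨h2, h3 | h3⟩
    · exact Or.inl ⟨h2, h3⟩
    · exact Or.inr ⟨h2, h3⟩
  have h2 := few_bad Q hQ A hA x.1
  have h3 := few_bad Q hQ B hB x.2
  have h4 := (card_le_card h1).trans (card_union_le _ _)
  omega

open Classical in
lemma halve {α : Type} (Q : Finset ℕ) (bad : ℕ → α → Prop) (r : ℕ) (hr : 2 * r < Q.card)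
    (Z : Finset α) (hZ : ∀ z ∈ Z, (Q.filter fun q => bad q z).card ≤ r) :
    ∃ q ∈ Q, 2 * (Z.filter fun z => bad q z).card ≤ Z.card := by
  by_contra hcon
  push Not at hcon
  have hne : Q.Nonempty := card_pos.mp (by omega)
  have h1 : Q.card * Z.card < ∑ q ∈ Q, 2 * (Z.filter fun z => bad q z).card := by
    rw [← smul_eq_mul, ← sum_const]
    exact sum_lt_sum_of_nonempty hne hcon
  have h2 : ∑ q ∈ Q, 2 * (Z.filter fun z => bad q z).card =
      2 * ∑ z ∈ Z, (Q.filter fun q => bad q z).card := by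
    rw [← mul_sum]
    congr 1
    simp only [card_filter]
    exact sum_comm
  have h3 : ∑ z ∈ Z, (Q.filter fun q => bad q z).card ≤ Z.card * r := by
    rw [← smul_eq_mul, ← sum_const]
    exact sum_le_sum hZ
  rw [h2] at h1
  have h4 : Z.card * (2 * r) ≤ Z.card * Q.card := Nat.mul_le_mul_left _ hr.le
  have h5 : 2 * (Z.card * r) = Z.card * (2 * r) := by ring
  have h6 : Q.card * Z.card = Z.card * Q.card := mul_comm _ _
  omega

open Classical in
lemma separate {α : Type} (Q : Finset ℕ) (bad : ℕ → α → Prop) (r : ℕ) (hr : 2 * r < Q.card) :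
    ∀ (t : ℕ) (Z : Finset α), (∀ z ∈ Z, (Q.filter fun q => bad q z).card ≤ r) →
    ∃ q : Fin t → ℕ, (∀ l, q l ∈ Q) ∧
      2 ^ t * (Z.filter fun z => ∀ l, bad (q l) z).card ≤ Z.card := by
  intro t
  induction t with
  | zero =>
    intro Z _
    refine ⟨fun l => l.elim0, fun l => l.elim0, ?_⟩
    rw [pow_zero, one_mul]
    exact card_filter_le _ _
  | succ t ih =>
    intro Z hZ
    obtain ⟨q0, h1, h2⟩ := halve Q bad r hr Z hZ
    obtain ⟨q, h3, h4⟩ := ih (Z.filter fun z => bad q0 z)
      (fun z hz => hZ z (mem_filter.mp hz).1)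
    refine ⟨Fin.cons q0 q, fun l => ?_, ?_⟩
    · refine Fin.cases ?_ (fun l => ?_) l
      · exact h1
      · exact h3 l
    · have h5 : (Z.filter fun z => ∀ l, bad ((Fin.cons q0 q : Fin (t + 1) → ℕ) l) z) =
          (Z.filter fun z => bad q0 z).filter fun z => ∀ l, bad (q l) z := by
        ext z
        simp only [mem_filter]
        constructor
        · rintro ⟨e1, e2⟩
          exact ⟨⟨e1, e2 0⟩, fun l => e2 l.succ⟩
        · rintro ⟨⟨e1, e2⟩, e3⟩
          exact ⟨e1, fun l => Fin.cases e2 e3 l⟩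
      rw [h5]
      calc 2 ^ (t + 1) * ((Z.filter fun z => bad q0 z).filter
            fun z => ∀ l, bad (q l) z).card =
          2 * (2 ^ t * ((Z.filter fun z => bad q0 z).filter
            fun z => ∀ l, bad (q l) z).card) := by ring
        _ ≤ 2 * (Z.filter fun z => bad q0 z).card := Nat.mul_le_mul_left _ h4
        _ ≤ _ := h2

/-- Some primes isolate all pairs. -/
lemma exists_iso {n m t : ℕ} (Q : Finset ℕ) (hQ : ∀ q ∈ Q, q.Prime) (A B : Fin n → ℕ)
    (hA : ∀ i, A i < 2 ^ m) (hB : ∀ i, B i < 2 ^ m) (hc : 2 * (2 * (n * m)) < Q.card)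
    (ht : n ^ 2 < 2 ^ t) : ∃ q : Fin t → ℕ, (∀ l, q l ∈ Q) ∧
      ∀ i j, ∃ l, Iso A (q l) i ∧ Iso B (q l) j := by
  classical
  obtain ⟨bad, hbad⟩ : ∃ bad : ℕ → Fin n × Fin n → Prop,
      bad = fun q x => ¬ (Iso A q x.1 ∧ Iso B q x.2) := ⟨_, rfl⟩
  have h0 : ∀ x ∈ (univ : Finset (Fin n × Fin n)),
      (Q.filter fun q => bad q x).card ≤ 2 * (n * m) := by
    intro x _
    rw [hbad]
    convert few_bad2 Q hQ A B hA hB x
  obtain ⟨q, h1, h2⟩ := separate Q bad (2 * (n * m)) hc t univ (fun x hx => by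
    convert h0 x hx)
  refine ⟨q, h1, fun i j => ?_⟩
  by_contra hno
  push Not at hno
  have h3 : (i, j) ∈ ((univ : Finset (Fin n × Fin n)).filter fun x => ∀ l, bad (q l) x) := by
    rw [mem_filter]
    refine ⟨mem_univ _, fun l => ?_⟩
    rw [hbad]
    exact fun h => hno l h.1 h.2
  have h4 := card_pos.mpr ⟨_, h3⟩
  have h5 : 2 ^ t * 1 ≤ (univ : Finset (Fin n × Fin n)).card := by
    refine (Nat.mul_le_mul_left _ h4).trans ?_
    convert h2
  rw [card_univ, Fintype.card_prod, Fintype.card_fin, mul_one, ← sq] at h5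
  omega

open Classical in
/-- the quotient of the isolated value in the class `r`, or a large number -/
noncomputable def code {n : ℕ} (A : Fin n → ℕ) (q M r : ℕ) : ℕ :=
  if h : ∃ i, A i % q = r ∧ Iso A q i then A h.choose / q else 2 * M + 2

lemma code_eq {n : ℕ} {A : Fin n → ℕ} {q M : ℕ} {i : Fin n} (h : Iso A q i) :
    code A q M (A i % q) = A i / q := by
  have h1 : ∃ i', A i' % q = A i % q ∧ Iso A q i' := ⟨i, rfl, h⟩
  unfold code
  rw [dif_pos h1]
  rw [h h1.choose h1.choose_spec.1]

lemma code_cases {n : ℕ} (A : Fin n → ℕ) (q M r : ℕ) :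
    (∃ i, A i % q = r ∧ code A q M r = A i / q) ∨ code A q M r = 2 * M + 2 := by
  unfold code
  by_cases h : ∃ i, A i % q = r ∧ Iso A q i
  · rw [dif_pos h]
    exact Or.inl ⟨h.choose, h.choose_spec.1, rfl⟩
  · rw [dif_neg h]
    exact Or.inr rfl

lemma code_lt {n : ℕ} {A : Fin n → ℕ} {q M : ℕ} (h : ∀ i, A i / q ≤ M) (r : ℕ) :
    code A q M r < 2 * M + 3 := by
  rcases code_cases A q M r with ⟨i, -, h1⟩ | h1
  · have := h i
    omega
  · omega

/-- A positive answer is right. -/
lemma sound {n : ℕ} {A B : Fin n → ℕ} {q M r s v : ℕ} (hv : v < 2 * M + 2)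
    (h : code A q M r + code B q M s = v) : ∃ i j, A i + B j = r + s + q * v := by
  rcases code_cases A q M r with ⟨i, h1, h2⟩ | h2
  · rcases code_cases B q M s with ⟨j, h3, h4⟩ | h4
    · refine ⟨i, j, ?_⟩
      have h5 := Nat.mod_add_div (A i) q
      have h6 := Nat.mod_add_div (B j) q
      rw [h1, ← h2] at h5
      rw [h3, ← h4] at h6
      rw [← h, mul_add]
      omega
    · omega
  · omega

/-- The reduction to Convolution-3SUM-Indexing. -/
theorem reduction {n m t N S T w M : ℕ} (Q : Finset ℕ)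
    (hQ : ∀ q ∈ Q, q.Prime ∧ q ≤ N ∧ 2 ^ m / q ≤ M) (hM : 2 * M + 3 ≤ N)
    (hc : 2 * (2 * (n * m)) < Q.card) (ht : n ^ 2 < 2 ^ t) (hw : N < 2 ^ w)
    (h : HasConvStructure N S T w) :
    HasStructure n m (t * (S + 1)) (t * (2 * T + 1)) w := by
  classical
  obtain ⟨mem, alg, h1, h2⟩ := h
  have hN : 0 < N := by omega
  obtain ⟨P, hP⟩ : ∃ P : (Fin n → ℕ) → (Fin n → ℕ) → Fin t → ℕ, ∀ A B : Fin n → ℕ,
      (∀ i, A i < 2 ^ m) → (∀ i, B i < 2 ^ m) → (∀ l, P A B l ∈ Q) ∧
      ∀ i j, ∃ l, Iso A (P A B l) i ∧ Iso B (P A B l) j := by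
    refine ⟨fun A B => if hAB : (∀ i, A i < 2 ^ m) ∧ (∀ i, B i < 2 ^ m) then
      (exists_iso Q (fun q hq => (hQ q hq).1) A B hAB.1 hAB.2 hc ht).choose else fun _ => 0,
      fun A B hA hB => ?_⟩
    have hAB : (∀ i, A i < 2 ^ m) ∧ (∀ i, B i < 2 ^ m) := ⟨hA, hB⟩
    simp only [dif_pos hAB]
    exact (exists_iso Q (fun q hq => (hQ q hq).1) A B hAB.1 hAB.2 hc ht).choose_spec
  have hcard : Fintype.card (Fin t × Option (Fin S)) = t * (S + 1) := by
    rw [Fintype.card_prod, Fintype.card_fin, Fintype.card_option, Fintype.card_fin]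
  obtain ⟨e⟩ : Nonempty ((Fin t × Option (Fin S)) ≃ Fin (t * (S + 1))) :=
    ⟨Fintype.equivFinOfCardEq hcard⟩
  have hpos : 0 < 2 ^ w := Nat.pow_pos (by norm_num)
  -- the functions
  obtain ⟨F, hF⟩ : ∃ F : (Fin n → ℕ) → ℕ → Fin N → Fin N, F = fun A q r =>
      ⟨code A q M r.1 % N, Nat.mod_lt _ hN⟩ := ⟨_, rfl⟩
  -- the memory
  obtain ⟨cell, hcell⟩ : ∃ cell : (Fin n → ℕ) → (Fin n → ℕ) →
      Fin t × Option (Fin S) → Fin (2 ^ w), cell = fun A B x =>
        match x.2 with
        | none => ⟨P A B x.1 % 2 ^ w, Nat.mod_lt _ hpos⟩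
        | some i => mem (F A (P A B x.1)) (F B (P A B x.1)) i := ⟨_, rfl⟩
  -- the algorithm
  obtain ⟨lev, hlev⟩ : ∃ lev : ℕ → Fin t →
      Probe (Fin t × Option (Fin S)) (Fin (2 ^ w)), lev = fun z l =>
        Probe.probe (l, none) fun v =>
          ((alg (z % v.1) (z / v.1)).mapC fun i => (l, some i)).orP
            (if v.1 ≤ z then
              ((alg (z % v.1 + v.1) (z / v.1 - 1)).mapC fun i => (l, some i)) else
              Probe.out false) := ⟨_, rfl⟩
  have hlevT : ∀ z l, (lev z l).Within (2 * T + 1) := by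
    intro z l
    rw [hlev]
    show ∀ v, _
    intro v
    rw [two_mul]
    refine within_orP (within_mapC _ _ (h1 _ _)) ?_
    split_ifs
    · exact within_mapC _ _ (h1 _ _)
    · exact trivial
  have key : ∀ (A B : Fin n → ℕ), (∀ i, A i < 2 ^ m) → (∀ i, B i < 2 ^ m) →
      (∀ l, P A B l ∈ Q) → ∀ z < 2 ^ (m + 1), ∀ l,
      ((lev z l).run (cell A B) = true → ∃ i j, A i + B j = z) ∧
      ((∃ i j, A i + B j = z ∧ Iso A (P A B l) i ∧ Iso B (P A B l) j) →
        (lev z l).run (cell A B) = true) := by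
    intro A B hA hB hp z hz l
    obtain ⟨hq1, hq2, hq3⟩ := hQ _ (hp l)
    have hq0 : 0 < P A B l := hq1.pos
    have hqw : P A B l < 2 ^ w := lt_of_le_of_lt hq2 hw
    have hv : (cell A B (l, none)).1 = P A B l := by
      rw [hcell]
      exact Nat.mod_eq_of_lt hqw
    have hmem : (fun i => cell A B (l, some i)) =
        mem (F A (P A B l)) (F B (P A B l)) := by
      rw [hcell]
    obtain ⟨q, hq⟩ : ∃ q, q = P A B l := ⟨_, rfl⟩
    rw [← hq] at hq0 hq1 hq2 hq3 hv hmem ⊢
    have h4 : (lev z l).run (cell A B) = (((alg (z % q) (z / q)).mapC fun i => (l, some i)).orP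
        (if q ≤ z then ((alg (z % q + q) (z / q - 1)).mapC fun i => (l, some i)) else
          Probe.out false)).run (cell A B) := by
      rw [hlev]
      show ((((alg (z % (cell A B (l, none)).1) (z / (cell A B (l, none)).1)).mapC
        fun i => (l, some i)).orP
          (if (cell A B (l, none)).1 ≤ z then
            ((alg (z % (cell A B (l, none)).1 + (cell A B (l, none)).1)
              (z / (cell A B (l, none)).1 - 1)).mapC fun i => (l, some i)) else
            Probe.out false)).run (cell A B)) = _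
      rw [hv]
    have hb : ∀ x < 2 ^ m, x / q ≤ M := fun x hx => (Nat.div_le_div_right hx.le).trans hq3
    have hFv : ∀ (X : Fin n → ℕ), (∀ i, X i < 2 ^ m) → ∀ r : Fin N,
        ((F X q r : Fin N) : ℕ) = code X q M r.1 := by
      intro X hX r
      rw [hF]
      exact Nat.mod_eq_of_lt (lt_of_lt_of_le (code_lt (fun i => hb _ (hX i)) r.1) hM)
    have hzq : z / q < 2 * M + 2 := by
      rw [Nat.div_lt_iff_lt_mul hq0]
      have h5 : 2 ^ m < (M + 1) * q := by
        rw [← Nat.div_lt_iff_lt_mul hq0]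
        omega
      rw [pow_succ] at hz
      nlinarith
    have hzz := Nat.mod_add_div z q
    rw [h4, run_orP, run_mapC, hmem, h2]
    constructor
    · rintro (⟨i, j, h5, h6⟩ | h5)
      · rw [hFv A hA, hFv B hB] at h6
        obtain ⟨a, b, h7⟩ := sound hzq h6
        refine ⟨a, b, ?_⟩
        rw [h7, h5]
        exact hzz
      · split_ifs at h5 with h6
        · rw [run_mapC, hmem, h2] at h5
          obtain ⟨i, j, h7, h8⟩ := h5
          rw [hFv A hA, hFv B hB] at h8
          have h9 : z / q - 1 < 2 * M + 2 := by omega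
          obtain ⟨a, b, h10⟩ := sound h9 h8
          refine ⟨a, b, ?_⟩
          have h11 : 1 ≤ z / q := (Nat.one_le_div_iff hq0).mpr h6
          rw [h10, h7]
          obtain ⟨y, hy⟩ : ∃ y, z / q = y + 1 := ⟨z / q - 1, by omega⟩
          rw [hy] at hzz ⊢
          rw [Nat.add_sub_cancel]
          rw [mul_add, mul_one] at hzz
          omega
        · exact absurd h5 (by simp [Probe.run])
    · rintro ⟨i, j, h5, h6, h7⟩
      have hr1 : A i % q < N := lt_of_lt_of_le (Nat.mod_lt _ hq0) hq2
      have hr2 : B j % q < N := lt_of_lt_of_le (Nat.mod_lt _ hq0) hq2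
      have e1 := Nat.mod_add_div (A i) q
      have e2 := Nat.mod_add_div (B j) q
      have e3 := Nat.mod_lt (A i) hq0
      have e4 := Nat.mod_lt (B j) hq0
      have e5 := Nat.mod_lt z hq0
      have c1 : ((F A q ⟨A i % q, hr1⟩ : Fin N) : ℕ) = A i / q := by
        rw [hFv A hA]
        exact code_eq h6
      have c2 : ((F B q ⟨B j % q, hr2⟩ : Fin N) : ℕ) = B j / q := by
        rw [hFv B hB]
        exact code_eq h7
      rcases lt_or_ge (A i % q + B j % q) q with h8 | h8
      · left
        have e6 : z = (A i % q + B j % q) + q * (A i / q + B j / q) := by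
          rw [mul_add]
          omega
        have e7 : z % q = A i % q + B j % q := by
          rw [e6, Nat.add_mul_mod_self_left, Nat.mod_eq_of_lt h8]
        have e8 : z / q = A i / q + B j / q := by
          rw [e6, Nat.add_mul_div_left _ _ hq0, Nat.div_eq_of_lt h8, zero_add]
        exact ⟨⟨A i % q, hr1⟩, ⟨B j % q, hr2⟩, e7.symm, by rw [c1, c2, e8]⟩
      · right
        have e6 : z = (A i % q + B j % q - q) + q * (A i / q + B j / q + 1) := by
          rw [mul_add, mul_add, mul_one]
          omega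
        have h9 : A i % q + B j % q - q < q := by omega
        have e7 : z % q = A i % q + B j % q - q := by
          rw [e6, Nat.add_mul_mod_self_left, Nat.mod_eq_of_lt h9]
        have e8 : z / q = A i / q + B j / q + 1 := by
          rw [e6, Nat.add_mul_div_left _ _ hq0, Nat.div_eq_of_lt h9, zero_add]
        have h10 : q ≤ z := by
          have : q * 1 ≤ q * (A i / q + B j / q + 1) := Nat.mul_le_mul_left _ (by omega)
          omega
        rw [if_pos h10, run_mapC, hmem, h2]
        refine ⟨⟨A i % q, hr1⟩, ⟨B j % q, hr2⟩, ?_, ?_⟩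
        · show A i % q + B j % q = z % q + q
          omega
        · rw [c1, c2, e8]
          omega
  refine ⟨fun A B x => cell A B (e.symm x), fun z => if z < 2 ^ (m + 1) then
    (anyP (List.ofFn fun l => lev z l)).mapC e else Probe.out false, fun z => ?_,
    fun A B hA hB z => ?_⟩
  · beta_reduce
    split_ifs
    · refine within_mapC _ _ ?_
      have h3 := within_anyP (T := 2 * T + 1) (List.ofFn fun l => lev z l) (fun P hP => by
        rw [List.mem_ofFn] at hP
        obtain ⟨l, rfl⟩ := hP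
        exact hlevT z l)
      rwa [List.length_ofFn] at h3
    · exact trivial
  · obtain ⟨hp, hiso⟩ := hP A B hA hB
    beta_reduce
    split_ifs with hz
    · rw [run_mapC]
      have h3 : (fun i => cell A B (e.symm (e i))) = cell A B := by
        funext i
        rw [Equiv.symm_apply_apply]
      rw [h3, run_anyP]
      constructor
      · rintro ⟨R, hR, h4⟩
        rw [List.mem_ofFn] at hR
        obtain ⟨l, rfl⟩ := hR
        exact (key A B hA hB hp z hz l).1 h4
      · rintro ⟨i, j, hij⟩
        obtain ⟨l, h4, h5⟩ := hiso i j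
        refine ⟨lev z l, ?_, (key A B hA hB hp z hz l).2 ⟨i, j, hij, h4, h5⟩⟩
        rw [List.mem_ofFn]
        exact ⟨l, rfl⟩
    · constructor
      · intro h4
        exact absurd h4 (by simp [Probe.run])
      · rintro ⟨i, j, hij⟩
        exfalso
        apply hz
        have h4 := hA i
        have h5 := hB j
        rw [pow_succ]
        omega

/-- The other direction. -/
theorem converse {N b S T w : ℕ} (hb : 2 * N * N ≤ 2 ^ b) (h : HasStructure N b S T w) :
    HasConvStructure N S T w := by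
  obtain ⟨mem, alg, h1, h2⟩ := h
  refine ⟨fun f g => mem (fun i => i.1 + 2 * N * (f i).1) (fun i => i.1 + 2 * N * (g i).1),
    fun k v => if k < 2 * N then alg (k + 2 * N * v) else Probe.out false,
    fun k v => ?_, fun f g k v => ?_⟩
  · beta_reduce
    split_ifs
    · exact h1 _
    · exact trivial
  · have hlt : ∀ (f : Fin N → Fin N) (i : Fin N), i.1 + 2 * N * (f i).1 < 2 ^ b := by
      intro f i
      refine lt_of_lt_of_le ?_ hb
      have h3 := i.2
      have h4 := (f i).2
      obtain ⟨y, hy⟩ : ∃ y, y = (f i).1 := ⟨_, rfl⟩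
      rw [← hy] at h4 ⊢
      have h5 : 2 * N * (y + 1) ≤ 2 * N * N := Nat.mul_le_mul_left _ h4
      rw [mul_add, mul_one] at h5
      omega
    beta_reduce
    split_ifs with hk
    · rw [h2 _ _ (hlt f) (hlt g)]
      constructor
      · rintro ⟨i, j, h3⟩
        have h4 : (i.1 + j.1) + 2 * N * ((f i).1 + (g j).1) = k + 2 * N * v := by
          rw [mul_add]
          omega
        have h5 : i.1 + j.1 < 2 * N := by
          have := i.2
          have := j.2
          omega
        have h6 : 0 < 2 * N := by omega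
        have h7 : ((i.1 + j.1) + 2 * N * ((f i).1 + (g j).1)) % (2 * N) =
            (k + 2 * N * v) % (2 * N) := by rw [h4]
        rw [Nat.add_mul_mod_self_left, Nat.add_mul_mod_self_left, Nat.mod_eq_of_lt h5,
          Nat.mod_eq_of_lt hk] at h7
        refine ⟨i, j, h7, ?_⟩
        rw [h7] at h4
        exact Nat.eq_of_mul_eq_mul_left h6 (Nat.add_left_cancel h4)
      · rintro ⟨i, j, h3, h4⟩
        refine ⟨i, j, ?_⟩
        rw [← h3, ← h4, mul_add]
        omega
    · constructor
      · intro h4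
        exact absurd h4 (by simp [Probe.run])
      · rintro ⟨i, j, h3, -⟩
        exfalso
        apply hk
        have := i.2
        have := j.2
        omega

/-- More cells and more probes. -/
theorem mono {n m S T w S' T' : ℕ} (hS : S ≤ S') (hT : T ≤ T') (h : HasStructure n m S T w) :
    HasStructure n m S' T' w := by
  obtain ⟨mem, alg, h1, h2⟩ := h
  refine ⟨fun A B x => if hx : x.1 < S then mem A B ⟨x.1, hx⟩ else ⟨0, Nat.pow_pos (by norm_num)⟩,
    fun z => (alg z).mapC (Fin.castLE hS), fun z => within_mono _ hT (within_mapC _ _ (h1 z)),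
    fun A B hA hB z => ?_⟩
  rw [run_mapC, ← h2 A B hA hB z]
  have h3 : (fun i : Fin S => (if hx : (Fin.castLE hS i).1 < S then
      mem A B ⟨(Fin.castLE hS i).1, hx⟩ else ⟨0, Nat.pow_pos (by norm_num)⟩ : Fin (2 ^ w))) =
      mem A B := by
    funext i
    have h4 : (Fin.castLE hS i).1 < S := i.2
    rw [dif_pos h4]
    rfl
  rw [h3]

end Pool.Agent.Q329.NF
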